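import Mathlib
import Pool.Agent.Helper37.BP.Defs2

/-! BAP2 part TC: cotype passes to the limit. -/

open MeasureTheory Filter Topology
open scoped ENNReal NNReal

set_option maxSynthPendingDepth 3

namespace Pool.Agent.Helper61.BAP

open Pool.Agent.BAPp (sgn)
open Pool.Agent.Helper37.BP

theorem range_mono {L : Type} [NormedAddCommGroup L]
    [NormedSpace ℝ L] (X : ℕ → Type) [∀ n, NormedAddCommGroup (X n)] [∀ n, NormedSpace ℝ (X n)]
    (j : ∀ n, X n →ₗᵢ[ℝ] X (n + 1)) (ι : ∀ n, X n →ₗᵢ[ℝ] L)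
    (hι : ∀ n x, ι (n + 1) (j n x) = ι n x) {m n : ℕ} (h : m ≤ n) :
    Set.range (ι m) ⊆ Set.range (ι n) := by
  induction n, h using Nat.le_induction with
  | base => exact subset_rfl
  | succ n _ ih =>
    refine ih.trans ?_
    rintro _ ⟨x, rfl⟩
    exact ⟨j n x, hι n x⟩

theorem common_index {L : Type} [NormedAddCommGroup L]
    [NormedSpace ℝ L] (X : ℕ → Type) [∀ n, NormedAddCommGroup (X n)] [∀ n, NormedSpace ℝ (X n)]
    (j : ∀ n, X n →ₗᵢ[ℝ] X (n + 1)) (ι : ∀ n, X n →ₗᵢ[ℝ] L)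
    (hι : ∀ n x, ι (n + 1) (j n x) = ι n x) {κ : Type} [Fintype κ] (x : κ → L)
    (hx : ∀ i, x i ∈ ⋃ n, Set.range (ι n)) : ∃ N, ∃ y : κ → X N, ∀ i, ι N (y i) = x i := by
  have h1 : ∀ i, ∃ n, x i ∈ Set.range (ι n) := fun i => Set.mem_iUnion.mp (hx i)
  choose f hf using h1
  have h2 : ∀ i, ∃ y, ι (Finset.univ.sup f) y = x i := fun i =>
    range_mono X j ι hι (Finset.le_sup (Finset.mem_univ i)) (hf i)
  choose y hy using h2
  exact ⟨_, y, hy⟩

theorem cot_of_dense (r C : ℝ) (hr : 1 ≤ r) (hC : 0 ≤ C) {L : Type} [NormedAddCommGroup L]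
    [NormedSpace ℝ L] (X : ℕ → Type) [∀ n, NormedAddCommGroup (X n)] [∀ n, NormedSpace ℝ (X n)]
    (j : ∀ n, X n →ₗᵢ[ℝ] X (n + 1)) (ι : ∀ n, X n →ₗᵢ[ℝ] L)
    (hι : ∀ n x, ι (n + 1) (j n x) = ι n x) (hd : Dense (⋃ n, Set.range (ι n)))
    (h : ∀ n, Cot r C (X n)) : Cot r C L := by
  intro n x
  have hr0 : 0 < r := by linarith
  have hcl : IsClosed {x : Fin n → L | (∑ i, ‖x i‖ ^ r) ^ (1 / r) ≤
    C * ((∑ ω : Fin n → Bool, ‖∑ i, sgn (ω i) • x i‖) / 2 ^ n)} := by
    refine isClosed_le ?_ ?_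
    · refine Continuous.rpow_const ?_ fun _ => Or.inr (by positivity)
      refine continuous_finsetSum _ fun i _ => ?_
      exact Continuous.rpow_const (continuous_apply i).norm fun _ => Or.inr (by positivity)
    · refine continuous_const.mul ?_
      refine Continuous.div_const ?_ _
      refine continuous_finsetSum _ fun ω _ => ?_
      refine Continuous.norm ?_
      exact continuous_finsetSum _ fun i _ => (continuous_apply i).const_smul _
  have hdense : Dense (Set.univ.pi fun _ : Fin n => (⋃ n, Set.range (ι n))) :=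
    dense_pi Set.univ fun _ _ => hd
  have hsub : Set.univ.pi (fun _ : Fin n => (⋃ n, Set.range (ι n))) ⊆
      {x : Fin n → L | (∑ i, ‖x i‖ ^ r) ^ (1 / r) ≤
        C * ((∑ ω : Fin n → Bool, ‖∑ i, sgn (ω i) • x i‖) / 2 ^ n)} := by
    intro x hx
    obtain ⟨N, y, hy⟩ := common_index X j ι hι x fun i => hx i (Set.mem_univ i)
    have h1 := h N n y
    have e1 : ∀ i, ‖x i‖ = ‖y i‖ := fun i => by rw [← hy i, LinearIsometry.norm_map]
    have e2 : ∀ ω : Fin n → Bool, ‖∑ i, sgn (ω i) • x i‖ = ‖∑ i, sgn (ω i) • y i‖ := by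
      intro ω
      rw [← (ι N).norm_map (∑ i, sgn (ω i) • y i), map_sum]
      congr 1
      refine Finset.sum_congr rfl fun i _ => ?_
      rw [LinearIsometry.map_smul, hy i]
    simp only [Set.mem_ofPred_eq, e1, e2]
    exact h1
  have h3 : closure (Set.univ.pi (fun _ : Fin n => (⋃ n, Set.range (ι n)))) ⊆ _ :=
    closure_minimal hsub hcl
  rw [hdense.closure_eq] at h3
  exact h3 (Set.mem_univ x)

end Pool.Agent.Helper61.BAP
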