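import Mathlib
import Pool.Agent.Helper37.BP.Defs2
import Pool.Agent.Helper61.BAP.TC

/-! BAP2 part TE: the extension property of the limit. -/

open MeasureTheory Filter Topology
open scoped ENNReal NNReal

set_option maxSynthPendingDepth 3

namespace Pool.Agent.Helper61.BAP

open Pool.Agent.BAPp (sgn)
open Pool.Agent.Helper37.BP

/-- the `ℓ_q` gauge -/
noncomputable def nq (q : ℝ) {n : ℕ} (t : Fin n → ℝ) : ℝ := (∑ i, |t i| ^ q) ^ (1 / q)

theorem nq_nonneg (q : ℝ) {n : ℕ} (t : Fin n → ℝ) : 0 ≤ nq q t :=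
  Real.rpow_nonneg (Finset.sum_nonneg fun _ _ => Real.rpow_nonneg (abs_nonneg _) _) _

theorem abs_le_nq {q : ℝ} (hq : 1 ≤ q) {n : ℕ} (t : Fin n → ℝ) (i : Fin n) : |t i| ≤ nq q t := by
  have hq0 : 0 < q := by linarith
  have h1 : |t i| ^ q ≤ ∑ i, |t i| ^ q :=
    Finset.single_le_sum (f := fun i => |t i| ^ q)
      (fun _ _ => Real.rpow_nonneg (abs_nonneg _) _) (Finset.mem_univ i)
  have h2 := Real.rpow_le_rpow (Real.rpow_nonneg (abs_nonneg _) _) h1
    (by positivity : (0 : ℝ) ≤ 1 / q)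
  rw [← Real.rpow_mul (abs_nonneg _), mul_one_div_cancel hq0.ne', Real.rpow_one] at h2
  exact h2

theorem norm_le_nq {q : ℝ} (hq : 1 ≤ q) {n : ℕ} (t : Fin n → ℝ) : ‖t‖ ≤ nq q t :=
  (pi_norm_le_iff_of_nonneg (nq_nonneg q t)).mpr fun i => abs_le_nq hq t i

theorem nq_single {q : ℝ} (hq : 1 ≤ q) {n : ℕ} (i : Fin n) :
    nq q (Pi.single i (1 : ℝ)) = 1 := by
  have hq0 : 0 < q := by linarith
  unfold nq
  rw [Finset.sum_eq_single i]
  · simp
  · intro k _ hk
    rw [Pi.single_eq_of_ne hk]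
    simp [Real.zero_rpow hq0.ne']
  · intro h
    exact absurd (Finset.mem_univ i) h

theorem approx_step (q η : ℝ) (hq : 1 ≤ q) (hη : 0 < η) {L : Type} [NormedAddCommGroup L]
    [NormedSpace ℝ L] [CompleteSpace L] (X : ℕ → Type) [∀ n, NormedAddCommGroup (X n)]
    [∀ n, NormedSpace ℝ (X n)] (j : ∀ n, X n →ₗᵢ[ℝ] X (n + 1)) (ι : ∀ n, X n →ₗᵢ[ℝ] L)
    (hι : ∀ n x, ι (n + 1) (j n x) = ι n x) (hd : Dense (⋃ n, Set.range (ι n)))
    (h : ∀ n, ExtStep q η (j n)) (n : ℕ) (S : Submodule ℝ (Fin n → ℝ)) (u : S →ₗ[ℝ] L)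
    (hu : ∀ s : S, ‖u s‖ ≤ nq q (s : Fin n → ℝ)) :
    ∃ b : Fin n → L, (∀ s : S, ‖u s - ∑ i, (s : Fin n → ℝ) i • b i‖ ≤
        (1 / 2) * nq q (s : Fin n → ℝ)) ∧
      ∀ t : Fin n → ℝ, ‖∑ i, t i • b i‖ ≤ 3 / (2 * η) * nq q t := by
  classical
  set d := Module.finrank ℝ S with hd'
  let e : Module.Basis (Fin d) ℝ S := Module.finBasis ℝ S
  -- bound for the coordinates
  have hM : ∀ k : Fin d, ∃ M : ℝ, 0 ≤ M ∧ ∀ s : S, |e.coord k s| ≤ M * nq q (s : Fin n → ℝ) := by
    intro k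
    let φ : S →L[ℝ] ℝ := LinearMap.toContinuousLinearMap (e.coord k)
    refine ⟨‖φ‖, norm_nonneg _, fun s => ?_⟩
    have h1 : ‖φ s‖ ≤ ‖φ‖ * ‖s‖ := φ.le_opNorm s
    refine h1.trans (mul_le_mul_of_nonneg_left ?_ (norm_nonneg _))
    exact norm_le_nq hq (s : Fin n → ℝ)
  choose M hM0 hM using hM
  set δ : ℝ := 1 / (2 * (∑ k, M k + 1)) with hδ
  have hsum0 : 0 ≤ ∑ k, M k := Finset.sum_nonneg fun k _ => hM0 k
  have hδ0 : 0 < δ := by positivity
  have hδ1 : (∑ k, M k) * δ ≤ 1 / 2 := by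
    rw [hδ, mul_one_div, div_le_div_iff₀ (by positivity) (by norm_num)]
    linarith
  -- approximation of the basis
  have happ : ∀ k : Fin d, ∃ x ∈ ⋃ n, Set.range (ι n), dist (u (e k)) x < δ := fun k =>
    Metric.dense_iff.mp hd (u (e k)) δ hδ0 |>.imp fun x hx => ⟨hx.2, by
      have := hx.1; rw [Metric.mem_ball, dist_comm] at this; exact this⟩
  choose x hxU hxd using happ
  obtain ⟨N, y, hy⟩ := common_index X j ι hι x hxU
  let u1 : S →ₗ[ℝ] X N := e.constr ℝ y
  have hu1 : ∀ s : S, u1 s = ∑ k, e.coord k s • y k := by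
    intro s
    simp only [u1, Module.Basis.constr_apply_fintype, Module.Basis.coord_apply]
    rfl
  have hus : ∀ s : S, u s = ∑ k, e.coord k s • u (e k) := by
    intro s
    conv_lhs => rw [← e.sum_repr s, map_sum]
    refine Finset.sum_congr rfl fun k _ => ?_
    rw [map_smul]; rfl
  have hdiff : ∀ s : S, ‖u s - ι N (u1 s)‖ ≤ (1 / 2) * nq q (s : Fin n → ℝ) := by
    intro s
    have e1 : u s - ι N (u1 s) = ∑ k, e.coord k s • (u (e k) - x k) := by
      rw [hus s, hu1 s, map_sum, ← Finset.sum_sub_distrib]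
      refine Finset.sum_congr rfl fun k _ => ?_
      rw [LinearIsometry.map_smul, hy k, smul_sub]
    rw [e1]
    calc ‖∑ k, e.coord k s • (u (e k) - x k)‖ ≤ ∑ k, ‖e.coord k s • (u (e k) - x k)‖ :=
          norm_sum_le _ _
      _ ≤ ∑ k, (M k * nq q (s : Fin n → ℝ)) * δ := by
          refine Finset.sum_le_sum fun k _ => ?_
          rw [norm_smul]
          refine mul_le_mul (hM k s) ?_ (norm_nonneg _)
            (mul_nonneg (hM0 k) (nq_nonneg _ _))
          rw [← dist_eq_norm]; exact (hxd k).le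
      _ = ((∑ k, M k) * δ) * nq q (s : Fin n → ℝ) := by
          rw [Finset.sum_mul, Finset.sum_mul]
          exact Finset.sum_congr rfl fun k _ => by ring
      _ ≤ (1 / 2) * nq q (s : Fin n → ℝ) :=
          mul_le_mul_of_nonneg_right hδ1 (nq_nonneg _ _)
  have hu1n : ∀ s : S, ‖u1 s‖ ≤ (3 / 2) * nq q (s : Fin n → ℝ) := by
    intro s
    have h1 : ‖u1 s‖ = ‖ι N (u1 s)‖ := ((ι N).norm_map _).symm
    have h2 : ‖ι N (u1 s)‖ ≤ ‖u s‖ + ‖u s - ι N (u1 s)‖ := by
      have : ι N (u1 s) = u s - (u s - ι N (u1 s)) := by abel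
      calc ‖ι N (u1 s)‖ = ‖u s - (u s - ι N (u1 s))‖ := by rw [← this]
        _ ≤ _ := norm_sub_le _ _
    have h3 := hu s
    have h4 := hdiff s
    linarith
  obtain ⟨b', hb1, hb2⟩ := h N n S ((2 * η / 3) • u1) (by
    intro s
    rw [LinearMap.smul_apply, norm_smul, Real.norm_of_nonneg (by positivity)]
    have := hu1n s
    calc 2 * η / 3 * ‖u1 s‖ ≤ 2 * η / 3 * ((3 / 2) * nq q (s : Fin n → ℝ)) :=
          mul_le_mul_of_nonneg_left this (by positivity)
      _ = η * nq q (s : Fin n → ℝ) := by ring)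
  refine ⟨fun i => (3 / (2 * η)) • ι (N + 1) (b' i), fun s => ?_, fun t => ?_⟩
  · have e1 : ∑ i, (s : Fin n → ℝ) i • (3 / (2 * η)) • ι (N + 1) (b' i) = ι N (u1 s) := by
      have h1 := hb1 s
      have h2 := congrArg (ι (N + 1)) h1
      rw [hι, LinearMap.smul_apply, LinearIsometry.map_smul, map_sum] at h2
      have h3 : ∑ i, (s : Fin n → ℝ) i • (3 / (2 * η)) • ι (N + 1) (b' i)
          = (3 / (2 * η)) • ∑ i, ι (N + 1) ((s : Fin n → ℝ) i • b' i) := by
        rw [Finset.smul_sum]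
        refine Finset.sum_congr rfl fun i _ => ?_
        rw [LinearIsometry.map_smul, smul_comm]
      rw [h3, ← h2, smul_smul]
      have : 3 / (2 * η) * (2 * η / 3) = 1 := by field_simp
      rw [this, one_smul]
    rw [e1]
    exact hdiff s
  · have h3 : ∑ i, t i • (3 / (2 * η)) • ι (N + 1) (b' i)
        = (3 / (2 * η)) • ι (N + 1) (∑ i, t i • b' i) := by
      rw [map_sum, Finset.smul_sum]
      refine Finset.sum_congr rfl fun i _ => ?_
      rw [LinearIsometry.map_smul, smul_comm]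
    rw [h3, norm_smul, LinearIsometry.norm_map, Real.norm_of_nonneg (by positivity)]
    exact mul_le_mul_of_nonneg_left (hb2 t) (by positivity)

theorem lqep_of_dense (q η : ℝ) (hq : 1 ≤ q) (hη : 0 < η) {L : Type} [NormedAddCommGroup L]
    [NormedSpace ℝ L] [CompleteSpace L] (X : ℕ → Type) [∀ n, NormedAddCommGroup (X n)]
    [∀ n, NormedSpace ℝ (X n)] (j : ∀ n, X n →ₗᵢ[ℝ] X (n + 1)) (ι : ∀ n, X n →ₗᵢ[ℝ] L)
    (hι : ∀ n x, ι (n + 1) (j n x) = ι n x) (hd : Dense (⋃ n, Set.range (ι n)))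
    (h : ∀ n, ExtStep q η (j n)) : LqEP q (4 / η) L := by
  intro n S u hu
  classical
  let U : Type := {u : S →ₗ[ℝ] L // ∀ s : S, ‖u s‖ ≤ nq q (s : Fin n → ℝ)}
  have hstep := fun v : U => approx_step q η hq hη X j ι hι hd h n S v.1 v.2
  choose f hf1 hf2 using hstep
  let comb : (Fin n → L) → (S →ₗ[ℝ] L) := fun b =>
    { toFun := fun s => ∑ i, (s : Fin n → ℝ) i • b i
      map_add' := fun s s' => by
        rw [← Finset.sum_add_distrib]
        exact Finset.sum_congr rfl fun i _ => by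
          rw [Submodule.coe_add, Pi.add_apply, add_smul]
      map_smul' := fun c s => by
        rw [RingHom.id_apply, Finset.smul_sum]
        exact Finset.sum_congr rfl fun i _ => by
          rw [Submodule.coe_smul, Pi.smul_apply, smul_eq_mul, mul_smul] }
  let nxt : U → U := fun v => ⟨(2 : ℝ) • (v.1 - comb (f v)), fun s => by
    have h1 := hf1 v s
    rw [LinearMap.smul_apply, LinearMap.sub_apply, norm_smul, Real.norm_of_nonneg (by norm_num)]
    have h2 : ‖v.1 s - comb (f v) s‖ ≤ 1 / 2 * nq q (s : Fin n → ℝ) := h1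
    linarith⟩
  let sq : ℕ → U := fun k => nxt^[k] ⟨u, hu⟩
  have hsq : ∀ k, sq (k + 1) = nxt (sq k) := fun k => Function.iterate_succ_apply' nxt k _
  -- norm of coefficients
  have hfn : ∀ k i, ‖f (sq k) i‖ ≤ 3 / (2 * η) := by
    intro k i
    have h1 := hf2 (sq k) (Pi.single i 1)
    rw [nq_single hq, mul_one] at h1
    have h2 : ∑ i', (Pi.single i (1 : ℝ) : Fin n → ℝ) i' • f (sq k) i' = f (sq k) i := by
      rw [Finset.sum_eq_single i]
      · simp
      · intro k' _ hk'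
        rw [Pi.single_eq_of_ne hk', zero_smul]
      · intro hc
        exact absurd (Finset.mem_univ i) hc
    rwa [h2] at h1
  have hgeo : Summable (fun k : ℕ => (1 / 2 : ℝ) ^ k) := summable_geometric_two
  have hsm : ∀ i, Summable (fun k : ℕ => (1 / 2 : ℝ) ^ k • f (sq k) i) := by
    intro i
    refine Summable.of_norm_bounded (g := fun k => (1 / 2 : ℝ) ^ k * (3 / (2 * η)))
      (hgeo.mul_right _) fun k => ?_
    rw [norm_smul, Real.norm_of_nonneg (by positivity)]
    exact mul_le_mul_of_nonneg_left (hfn k i) (by positivity)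
  refine ⟨fun i => ∑' k : ℕ, (1 / 2 : ℝ) ^ k • f (sq k) i, fun s => ?_, fun t => ?_⟩
  · -- telescoping
    have htel : ∀ K : ℕ, u s = (∑ k ∈ Finset.range K, (1 / 2 : ℝ) ^ k • comb (f (sq k)) s)
        + (1 / 2 : ℝ) ^ K • (sq K).1 s := by
      intro K
      induction K with
      | zero => simp [sq]
      | succ K ih =>
        rw [Finset.sum_range_succ, hsq K]
        have e1 : (nxt (sq K)).1 s = (2 : ℝ) • ((sq K).1 s - comb (f (sq K)) s) := rfl
        rw [e1, smul_smul]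
        have e2 : (1 / 2 : ℝ) ^ (K + 1) * 2 = (1 / 2) ^ K := by rw [pow_succ]; ring
        rw [e2, smul_sub]
        conv_lhs => rw [ih]
        abel
    have hlim1 : Tendsto (fun K : ℕ => (1 / 2 : ℝ) ^ K • (sq K).1 s) atTop (𝓝 0) := by
      refine squeeze_zero_norm (a := fun K => (1 / 2 : ℝ) ^ K * nq q (s : Fin n → ℝ)) ?_ ?_
      · intro K
        rw [norm_smul, Real.norm_of_nonneg (by positivity)]
        exact mul_le_mul_of_nonneg_left ((sq K).2 s) (by positivity)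
      · have := (tendsto_pow_atTop_nhds_zero_of_lt_one (r := (1 / 2 : ℝ)) (by norm_num)
          (by norm_num)).mul_const (nq q (s : Fin n → ℝ))
        rwa [zero_mul] at this
    have hlim2 : Tendsto (fun K : ℕ => ∑ k ∈ Finset.range K, (1 / 2 : ℝ) ^ k • comb (f (sq k)) s)
        atTop (𝓝 (∑ i, (s : Fin n → ℝ) i • ∑' k : ℕ, (1 / 2 : ℝ) ^ k • f (sq k) i)) := by
      have h1 : ∀ K : ℕ, ∑ k ∈ Finset.range K, (1 / 2 : ℝ) ^ k • comb (f (sq k)) s
          = ∑ i, (s : Fin n → ℝ) i • ∑ k ∈ Finset.range K, (1 / 2 : ℝ) ^ k • f (sq k) i := by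
        intro K
        have e1 : ∀ k, comb (f (sq k)) s = ∑ i, (s : Fin n → ℝ) i • f (sq k) i := fun k => rfl
        simp only [e1, Finset.smul_sum]
        rw [Finset.sum_comm]
        refine Finset.sum_congr rfl fun i _ => Finset.sum_congr rfl fun k _ => ?_
        rw [smul_comm]
      simp only [h1]
      refine tendsto_finsetSum _ fun i _ => ?_
      exact ((hsm i).hasSum.tendsto_sum_nat).const_smul _
    have hlim3 := hlim2.add hlim1
    rw [add_zero] at hlim3
    have hconst : (fun K : ℕ => (∑ k ∈ Finset.range K, (1 / 2 : ℝ) ^ k • comb (f (sq k)) s)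
        + (1 / 2 : ℝ) ^ K • (sq K).1 s) = fun _ => u s := funext fun K => (htel K).symm
    rw [hconst] at hlim3
    exact tendsto_nhds_unique tendsto_const_nhds hlim3
  · have e1 : ∑ i, t i • ∑' k : ℕ, (1 / 2 : ℝ) ^ k • f (sq k) i
        = ∑' k : ℕ, (1 / 2 : ℝ) ^ k • ∑ i, t i • f (sq k) i := by
      have h1 : ∀ i, t i • ∑' k : ℕ, (1 / 2 : ℝ) ^ k • f (sq k) i
          = ∑' k : ℕ, t i • (1 / 2 : ℝ) ^ k • f (sq k) i := fun i =>
        (Summable.tsum_const_smul _ (hsm i)).symm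
      simp only [h1]
      rw [← Summable.tsum_finsetSum fun i _ => (hsm i).const_smul _]
      refine tsum_congr fun k => ?_
      rw [Finset.smul_sum]
      exact Finset.sum_congr rfl fun i _ => smul_comm _ _ _
    rw [e1]
    have hb : ∀ k : ℕ, ‖(1 / 2 : ℝ) ^ k • ∑ i, t i • f (sq k) i‖ ≤
        (1 / 2 : ℝ) ^ k * (3 / (2 * η) * nq q t) := by
      intro k
      rw [norm_smul, Real.norm_of_nonneg (by positivity)]
      exact mul_le_mul_of_nonneg_left (hf2 (sq k) t) (by positivity)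
    have h2 := tsum_of_norm_bounded ((hasSum_geometric_two).mul_right (3 / (2 * η) * nq q t)) hb
    refine h2.trans ?_
    have h3 : 2 * (3 / (2 * η) * nq q t) = 3 / η * nq q t := by field_simp
    rw [h3]
    refine mul_le_mul_of_nonneg_right ?_ (nq_nonneg _ _)
    exact div_le_div_of_nonneg_right (by norm_num) hη.le

end Pool.Agent.Helper61.BAP
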