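import Mathlib
import Pool.Agent.Helper37.BP.Defs2

/-! BAP2 part TOW: direct limit of a tower of isometric embeddings. -/

open MeasureTheory Filter Topology
open scoped ENNReal NNReal

set_option maxSynthPendingDepth 3

namespace Pool.Agent.Helper61.BAP

section
variable (X : ℕ → Type) [∀ n, NormedAddCommGroup (X n)] [∀ n, NormedSpace ℝ (X n)]
  (j : ∀ n, X n →ₗᵢ[ℝ] X (n + 1))

/-- the `m`-th term of the sequence started by `x ∈ X n` -/
noncomputable def tr (n : ℕ) : ∀ m : ℕ, X n →ₗ[ℝ] X m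
  | 0 => if h : n = 0 then h ▸ LinearMap.id else 0
  | m + 1 => if h : n = m + 1 then h ▸ LinearMap.id else (j m).toLinearMap ∘ₗ tr n m

theorem tr_lt (n m : ℕ) (h : m < n) (x : X n) : tr X j n m x = 0 := by
  induction m with
  | zero => rw [tr, dif_neg (by omega)]; rfl
  | succ m ih =>
    rw [tr, dif_neg (by omega)]
    simp [ih (by omega)]

theorem tr_self (n : ℕ) (x : X n) : tr X j n n x = x := by
  cases n with
  | zero => rw [tr, dif_pos rfl]; rfl
  | succ n => rw [tr, dif_pos rfl]; rfl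

theorem tr_succ (n m : ℕ) (h : n ≤ m) (x : X n) : tr X j n (m + 1) x = j m (tr X j n m x) := by
  rw [tr, dif_neg (by omega)]; rfl

theorem norm_tr (n m : ℕ) (h : n ≤ m) (x : X n) : ‖tr X j n m x‖ = ‖x‖ := by
  induction m, h using Nat.le_induction with
  | base => rw [tr_self]
  | succ m hm ih => rw [tr_succ X j n m hm, LinearIsometry.norm_map, ih]

theorem norm_tr_le (n m : ℕ) (x : X n) : ‖tr X j n m x‖ ≤ ‖x‖ := by
  rcases le_or_gt n m with h | h
  · exact (norm_tr X j n m h x).le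
  · rw [tr_lt X j n m h, norm_zero]; exact norm_nonneg _

theorem tr_comp (n m : ℕ) (h : n + 1 ≤ m) (x : X n) :
    tr X j (n + 1) m (j n x) = tr X j n m x := by
  induction m, h using Nat.le_induction with
  | base => rw [tr_self, tr_succ X j n n le_rfl, tr_self]
  | succ m hm ih =>
    rw [tr_succ X j (n + 1) m hm, ih, tr_succ X j n m (by omega)]

/-- the sequence as an element of `ℓ_∞(X)` -/
noncomputable def sqn (n : ℕ) : X n →ₗ[ℝ] lp X ∞ where
  toFun x := ⟨fun m => tr X j n m x, memℓp_infty ⟨‖x‖, by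
    rintro _ ⟨m, rfl⟩
    exact norm_tr_le X j n m x⟩⟩
  map_add' x y := by
    apply lp.ext; funext m
    exact map_add (tr X j n m) x y
  map_smul' c x := by
    apply lp.ext; funext m
    exact map_smul (tr X j n m) c x

/-- sequences tending to zero -/
noncomputable def c0 : Submodule ℝ (lp X ∞) where
  carrier := {x | Tendsto (fun m => ‖x m‖) atTop (𝓝 0)}
  add_mem' := by
    intro x y hx hy
    have h := Tendsto.add hx hy
    rw [add_zero] at h
    refine squeeze_zero (fun _ => norm_nonneg _) (fun m => ?_) h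
    exact norm_add_le (x m) (y m)
  zero_mem' := by
    have : (fun m => ‖(0 : lp X ∞) m‖) = fun _ => (0 : ℝ) := by
      funext m; exact norm_zero
    change Tendsto (fun m => ‖(0 : lp X ∞) m‖) atTop (𝓝 0)
    rw [this]; exact tendsto_const_nhds
  smul_mem' := by
    intro c x hx
    have h := Tendsto.const_mul ‖c‖ hx
    rw [mul_zero] at h
    refine squeeze_zero (fun _ => norm_nonneg _) (fun m => ?_) h
    exact (norm_smul c (x m)).le

theorem c0_closed : IsClosed (c0 X : Set (lp X ∞)) := by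
  rw [← isSeqClosed_iff_isClosed]
  intro xs x hxs hx
  change Tendsto (fun m => ‖x m‖) atTop (𝓝 0)
  rw [Metric.tendsto_atTop]
  intro ε hε
  obtain ⟨k, hk⟩ := (Metric.tendsto_atTop.mp hx (ε / 2) (by positivity))
  have hk' := hk k le_rfl
  obtain ⟨M, hM⟩ := (Metric.tendsto_atTop.mp (hxs k : Tendsto (fun m => ‖xs k m‖) atTop (𝓝 0))
    (ε / 2) (by positivity))
  refine ⟨M, fun m hm => ?_⟩
  have h1 := hM m hm
  rw [Real.dist_eq, sub_zero, abs_of_nonneg (norm_nonneg _)] at h1 ⊢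
  have h2 : ‖(xs k - x) m‖ ≤ ‖xs k - x‖ := lp.norm_apply_le_norm (by simp) (xs k - x) m
  rw [dist_eq_norm] at hk'
  have h3 : ‖x m‖ ≤ ‖xs k m‖ + ‖(xs k - x) m‖ := by
    have : x m = xs k m - (xs k - x) m := by
      have : (xs k - x) m = xs k m - x m := rfl
      rw [this]; abel
    calc ‖x m‖ = ‖xs k m - (xs k - x) m‖ := by rw [← this]
      _ ≤ _ := norm_sub_le _ _
  linarith

instance c0_closed' : IsClosed (c0 X : Set (lp X ∞)) := c0_closed X

/-- the ambient space -/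
abbrev Q0 : Type := lp X ∞ ⧸ c0 X

theorem norm_mk_sqn (n : ℕ) (x : X n) : ‖((c0 X).mkQ (sqn X j n x) : Q0 X)‖ = ‖x‖ := by
  apply le_antisymm
  · refine (Submodule.Quotient.norm_mk_le _ _).trans ?_
    exact lp.norm_le_of_forall_le (norm_nonneg _) fun m => norm_tr_le X j n m x
  · refine le_of_forall_pos_le_add fun ε hε => ?_
    obtain ⟨y, hy1, hy2⟩ := Submodule.Quotient.norm_mk_lt ((c0 X).mkQ (sqn X j n x) : Q0 X) hε
    have hy3 : y - sqn X j n x ∈ c0 X := (Submodule.Quotient.eq (c0 X)).mp hy1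
    have h1 : ∀ m, n ≤ m → ‖x‖ - ‖(y - sqn X j n x) m‖ ≤ ‖y‖ := by
      intro m hm
      have h2 : ‖y m‖ ≤ ‖y‖ := lp.norm_apply_le_norm (by simp) y m
      have h3 : (sqn X j n x) m = y m - (y - sqn X j n x) m := by
        have : (y - sqn X j n x) m = y m - (sqn X j n x) m := rfl
        rw [this]; abel
      have h4 : ‖(sqn X j n x) m‖ = ‖x‖ := norm_tr X j n m hm x
      have h5 : ‖(sqn X j n x) m‖ ≤ ‖y m‖ + ‖(y - sqn X j n x) m‖ := by
        rw [h3]; exact norm_sub_le _ _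
      linarith
    have h6 : Tendsto (fun m => ‖x‖ - ‖(y - sqn X j n x) m‖) atTop (𝓝 (‖x‖ - 0)) :=
      tendsto_const_nhds.sub hy3
    have h7 : ‖x‖ - 0 ≤ ‖y‖ := le_of_tendsto h6 (eventually_atTop.mpr ⟨n, h1⟩)
    linarith

theorem mk_comp (n : ℕ) (x : X n) : ((c0 X).mkQ (sqn X j (n + 1) (j n x)) : Q0 X)
    = (c0 X).mkQ (sqn X j n x) := by
  refine (Submodule.Quotient.eq (c0 X)).mpr ?_
  change Tendsto (fun m => ‖(sqn X j (n + 1) (j n x) - sqn X j n x) m‖) atTop (𝓝 0)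
  refine tendsto_const_nhds.congr' ?_
  refine eventually_atTop.mpr ⟨n + 1, fun m hm => ?_⟩
  have : (sqn X j (n + 1) (j n x) - sqn X j n x) m = 0 := by
    change tr X j (n + 1) m (j n x) - tr X j n m x = 0
    rw [tr_comp X j n m hm, sub_self]
  exact (norm_eq_zero.mpr this).symm

end

theorem tower (X : ℕ → Type) [∀ n, NormedAddCommGroup (X n)] [∀ n, NormedSpace ℝ (X n)]
    (j : ∀ n, X n →ₗᵢ[ℝ] X (n + 1)) {Z : Type} [NormedAddCommGroup Z] [NormedSpace ℝ Z]
    [CompleteSpace Z] (Ψ : ∀ n, X n →L[ℝ] Z) (hΨ : ∀ n, ‖Ψ n‖ ≤ 1)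
    (hc : ∀ n x, Ψ (n + 1) (j n x) = Ψ n x) :
    ∃ (L : Type) (_ : NormedAddCommGroup L) (_ : NormedSpace ℝ L) (_ : CompleteSpace L)
      (ι : ∀ n, X n →ₗᵢ[ℝ] L) (Φ : L →L[ℝ] Z), (∀ n x, ι (n + 1) (j n x) = ι n x) ∧
      Dense (⋃ n, Set.range (ι n)) ∧ ‖Φ‖ ≤ 1 ∧ ∀ n x, Φ (ι n x) = Ψ n x := by
  let Q := UniformSpace.Completion (Q0 X)
  let κ : ∀ n, X n →ₗ[ℝ] Q × Z := fun n =>
    ((UniformSpace.Completion.toComplₗᵢ (𝕜 := ℝ) (E := Q0 X)).toLinearMap ∘ₗ
      (c0 X).mkQ ∘ₗ sqn X j n).prod (Ψ n).toLinearMap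
  have hκn : ∀ n x, ‖κ n x‖ = ‖x‖ := by
    intro n x
    have h1 : ‖κ n x‖ = max ‖(UniformSpace.Completion.toComplₗᵢ (𝕜 := ℝ) (E := Q0 X))
      ((c0 X).mkQ (sqn X j n x))‖ ‖Ψ n x‖ := rfl
    rw [h1, LinearIsometry.norm_map, norm_mk_sqn, max_eq_left]
    have := (Ψ n).le_opNorm x
    nlinarith [hΨ n, norm_nonneg x]
  have hκc : ∀ n x, κ (n + 1) (j n x) = κ n x := by
    intro n x
    refine Prod.ext ?_ ?_
    · change (UniformSpace.Completion.toComplₗᵢ (𝕜 := ℝ) (E := Q0 X))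
        ((c0 X).mkQ (sqn X j (n + 1) (j n x))) = (UniformSpace.Completion.toComplₗᵢ (𝕜 := ℝ)
        (E := Q0 X)) ((c0 X).mkQ (sqn X j n x))
      rw [mk_comp]
    · exact hc n x
  have hmono : Monotone fun n => LinearMap.range (κ n) := by
    refine monotone_nat_of_le_succ fun n => ?_
    rintro _ ⟨x, rfl⟩
    exact ⟨j n x, hκc n x⟩
  let D : Submodule ℝ (Q × Z) := ⨆ n, LinearMap.range (κ n)
  let L := D.topologicalClosure
  have hD : (D : Set (Q × Z)) = ⋃ n, (LinearMap.range (κ n) : Set (Q × Z)) :=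
    Submodule.coe_iSup_of_directed _ hmono.directed_le
  have hmem : ∀ n x, κ n x ∈ L := fun n x =>
    D.le_topologicalClosure ((le_iSup (fun n => LinearMap.range (κ n)) n) ⟨x, rfl⟩)
  have : CompleteSpace L := D.isClosed_topologicalClosure.completeSpace_coe
  let ι : ∀ n, X n →ₗᵢ[ℝ] L := fun n =>
    { toLinearMap := (κ n).codRestrict L (hmem n)
      norm_map' := fun x => hκn n x }
  refine ⟨L, inferInstance, inferInstance, inferInstance, ι,
    (ContinuousLinearMap.snd ℝ Q Z).comp L.subtypeL, fun n x => Subtype.ext (hκc n x), ?_, ?_,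
    fun n x => rfl⟩
  · intro y
    have h1 : (y : Q × Z) ∈ closure (D : Set (Q × Z)) := y.2
    rw [Metric.mem_closure_iff] at h1 ⊢
    intro ε hε
    obtain ⟨z, hz1, hz2⟩ := h1 ε hε
    rw [hD] at hz1
    obtain ⟨n, hn⟩ := Set.mem_iUnion.mp hz1
    obtain ⟨x, hx⟩ := hn
    refine ⟨ι n x, Set.mem_iUnion.mpr ⟨n, x, rfl⟩, ?_⟩
    change dist (y : Q × Z) (κ n x) < ε
    rw [hx]; exact hz2
  · refine ContinuousLinearMap.opNorm_le_bound _ zero_le_one fun y => ?_
    rw [one_mul]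
    exact norm_snd_le (y : Q × Z)

end Pool.Agent.Helper61.BAP
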